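import Pool.Agent.V8H78.MP.FamX

/-!
# MP_d83ecd_ag: Zilber-Pink for all but finitely many members with algebraic parameters of bounded
degree, in one-parameter families of subvarieties of `Y(1)^n` with sufficiently many poles

`Y(1)^n` is identified with `ℂ^n` by the elliptic modular function `jj = j = E₄³ / Δ`.

**Families.** Let `K ⊂ ℂ` be a countable field. We consider families with one parameter `u`:
* a family `B_u ⊆ P^N` of projective algebraic sets, defined by forms `G k` with coefficients in
  `K[u]`, and quotients `f_i = A_i / B_i`, `i = 1, …, n`, of forms of the same degree `d_i` with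
  coefficients in `K[u]`; they give a family of subvarieties `V_u = f(B_u)` of `(P¹)^n`;
* rational functions `a_i (u) / q_i (u)` and `c_i (u) / q_i (u)` of the parameter with algebraic
  coefficients.
For a vector `s` of complex numbers let
`X_{u, s} = {x | ∃ y ∈ B_u, ∀ i, B_i (u; y) (q_i (u) x_i - a_i (u)) = s_i c_i (u) A_i (u; y)}`
(`member`). This is the image of `V_u` under the affine map with the components
`x_i = a_i (u) / q_i (u) + s_i (c_i (u) / q_i (u)) f_i`.

**Poles.** We assume that the family degenerates at `M` rational values `α_1, …, α_M` of the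
parameter in the following sense: `q_i (α_l) = c_i (α_l) = 0`, `a_i (α_l) ≠ 0`, so that the translation
part `a_i / q_i` has a pole at `α_l`, of larger order than `c_i / q_i`, and the polar divisors of the
`f_i` are in general position at `u = α_l`: no point of `B_{α_l}` lies on `m + 1` of the divisors
`{B_i (α_l; y) = 0}` (for `B_{α_l}` of dimension `m` this is the case in general).

**Theorem.** For all but finitely many algebraic numbers `u` of degree smaller than `M`, and for all
but finitely many algebraic integers `u` of degree at most `M`, the Zilber-Pink conjecture holds for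
`X_{u, s}`, for all vectors `s` of algebraic integers at once (`ZilberPink`): there is a finite set
`L` of levels such that for all special subvarieties `Z` of `Y(1)^n` each irreducible closed subset `W`
of `X_{u, s} ∩ Z` has dimension at most `dim Z + m - n`, or is contained in one of the proper special
subvarieties `T_M (x_i, x_j) = 0`, `M ∈ L`, `i ≠ j`. Also each point of `X_{u, s} ∩ Z` has
transcendence degree at most `dim Z + m - n` over `K` or is contained in one of them. The constant
coordinates of `Z` can be special points or arbitrary algebraic integers.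

For example let `V ⊂ Y(1)^n` be any subvariety of dimension `m` such that the polar divisors of
the coordinates are in general position on its closure. Then Zilber-Pink holds
* for `a / u + s V`, `a_i ≠ 0` given algebraic numbers, for all but finitely many integers `u`
  and all vectors `s` of algebraic integers (`M = 1`, `α_1 = 0`, `q_i = c_i = u`),
* for `(a_i / (u (u - 1)) + s_i f_i)_i`, for all but finitely many rational numbers `u`
  (`M = 2`, `α_1 = 0`, `α_2 = 1`).

The proof uses all places, not only those above large prime numbers: there is a number `D` such that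
the theorem holds for `u` if for one `l` and one place, above any prime number, `|u - α_l| < |D|`. If
this is not the case, then `D / (u - α_l)` is an algebraic integer for all `l`, and the value of the
minimal polynomial of `u` at `α_l` is bounded.
-/

namespace Pool.Agent.Results.MP_d83ecd_ag.BoundedDegreeParameters

open H294ZP UpperHalfPlane MvPolynomial Pool.Agent.W282.ZP

/-- A special subvariety of `Y(1)^n = ℂ^n` of dimension `r` (with more constants allowed): a map
`cls` from the coordinates onto `r` classes (`none` for constant coordinates), an integral matrix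
of positive determinant for every coordinate, and a constant for every coordinate, which is a
special point or an algebraic integer. -/
structure SpecialVariety (n r : ℕ) where
  cls : Fin n → Option (Fin r)
  surj : ∀ l : Fin r, ∃ i, cls i = some l
  mat : Fin n → Matrix (Fin 2) (Fin 2) ℤ
  det_pos : ∀ i, 0 < (mat i).det
  const : Fin n → ℂ
  allowed : ∀ i, (∃ τ : ℍ, IsCM τ ∧ const i = jj τ) ∨ IsIntegral ℤ (const i)

/-- The points of the special subvariety: the constant coordinates are the given constants, and the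
coordinates of class `l` are `j (g_i z_l)`, with a free parameter `z_l` in the upper half plane. -/
def SpecialVariety.locus {n r : ℕ} (Z : SpecialVariety n r) : Set (Fin n → ℂ) :=
  {x | ∃ z : Fin r → ℍ, ∀ i, (Z.cls i = none → x i = Z.const i) ∧
    ∀ l, Z.cls i = some l → ∃ w : ℍ,
      (w : ℂ) * (Z.mat i 1 0 * z l + Z.mat i 1 1) = Z.mat i 0 0 * z l + Z.mat i 0 1 ∧
      x i = jj w}

/-- The value at `y` of a form whose coefficients are polynomials in the parameter, for the value `u`
of the parameter. -/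
noncomputable def formAt {K : Subfield ℂ} {N : ℕ} (u : ℂ)
    (P : MvPolynomial (Fin (N + 1)) (Polynomial K)) (y : Fin (N + 1) → ℂ) : ℂ :=
  eval₂ ((Polynomial.aeval u : Polynomial K →ₐ[K] ℂ) : Polynomial K →+* ℂ) y P

/-- `y` is a vector of homogeneous coordinates of a point of the projective algebraic set `B_u`. -/
def OnB {K : Subfield ℂ} {N : ℕ} {κ : Type*} (u : ℂ)
    (G : κ → MvPolynomial (Fin (N + 1)) (Polynomial K)) (y : Fin (N + 1) → ℂ) : Prop :=
  y ≠ 0 ∧ ∀ k, formAt u (G k) y = 0

/-- The closed subset `X_{u, s}` of `Y(1)^n`. -/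
def member {K : Subfield ℂ} {N n : ℕ} {κ : Type*}
    (G : κ → MvPolynomial (Fin (N + 1)) (Polynomial K))
    (A B : Fin n → MvPolynomial (Fin (N + 1)) (Polynomial K))
    (a q c : Fin n → Polynomial (algebraicClosure ℚ ℂ)) (u : ℂ) (s : Fin n → ℂ) :
    Set (Fin n → ℂ) :=
  {x | ∃ y, OnB u G y ∧ ∀ i, formAt u (B i) y *
    (Polynomial.aeval u (q i) * x i - Polynomial.aeval u (a i)) =
      s i * Polynomial.aeval u (c i) * formAt u (A i) y}

/-- `x` and `y` are the `j`-invariants of two points of the upper half plane related by an integral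
matrix of determinant `M`: `(x, y)` is a point of the modular correspondence `T_M`. -/
def Isogenous (M : ℕ) (x y : ℂ) : Prop :=
  ∃ (τ w : ℍ) (a b c d : ℤ), a * d - b * c = M ∧ (w : ℂ) * (c * τ + d) = a * τ + b ∧
    x = jj τ ∧ y = jj w

/-- The Zilber-Pink conjecture for a subset `X` of dimension `m`: there are finitely many modular
correspondences between two coordinates which contain all irreducible closed subsets of the
intersections of `X` with special subvarieties which have more than the expected dimension, and all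
points of the intersections which have more than the expected transcendence degree over `K`. -/
def ZilberPink (K : Subfield ℂ) {n : ℕ} (m : ℕ) (X : Set (Fin n → ℂ)) : Prop :=
  ∃ L : Finset ℕ, (∀ M ∈ L, 0 < M) ∧ ∀ (r : ℕ) (Z : SpecialVariety n r),
    (∀ W ⊆ X ∩ Z.locus, zcl W ⊆ W → (idealOf W).IsPrime →
      zdim W + (n : Cardinal) ≤ (r : Cardinal) + (m : Cardinal) ∨
      ∃ i j, i ≠ j ∧ ∃ M ∈ L, ∀ x ∈ W, Isogenous M (x i) (x j)) ∧
    ∀ x ∈ X ∩ Z.locus, ∀ S : Finset (Fin n), AlgebraicIndependent K (fun i : S => x i) →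
      S.card + n ≤ r + m ∨ ∃ i j, i ≠ j ∧ ∃ M ∈ L, Isogenous M (x i) (x j)

/-- Zilber-Pink for all but finitely many members of a one-parameter family with `M` poles,
with algebraic parameters of degree smaller than `M`, or algebraic integers of degree at most `M`. -/
theorem result {κ : Type*} (K : Subfield ℂ) [Countable K] (N n m M : ℕ)
    (G : κ → MvPolynomial (Fin (N + 1)) (Polynomial K)) (hG : ∀ k, ∃ e, (G k).IsHomogeneous e)
    (A B : Fin n → MvPolynomial (Fin (N + 1)) (Polynomial K)) (d : Fin n → ℕ)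
    (hA : ∀ i, (A i).IsHomogeneous (d i)) (hB : ∀ i, (B i).IsHomogeneous (d i))
    (a q c : Fin n → Polynomial (algebraicClosure ℚ ℂ)) (hq : ∀ i, q i ≠ 0)
    (α : Fin M → ℚ) (hα : Function.Injective α)
    (hpole : ∀ l i, (a i).eval (α l : algebraicClosure ℚ ℂ) ≠ 0 ∧
      (q i).eval (α l : algebraicClosure ℚ ℂ) = 0 ∧ (c i).eval (α l : algebraicClosure ℚ ℂ) = 0)
    (hpos : ∀ l, ∀ I : Finset (Fin n), I.card = m + 1 → ∀ y, OnB (α l) G y →
      ∃ i ∈ I, formAt (α l) (B i) y ≠ 0) :
    {u : ℂ | IsAlgebraic ℚ u ∧ ((minpoly ℚ u).natDegree < M ∨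
        (IsIntegral ℤ u ∧ (minpoly ℚ u).natDegree ≤ M)) ∧
      ∃ s : Fin n → ℂ, (∀ i, IsIntegral ℤ (s i)) ∧
        ¬ ZilberPink K m (member G A B a q c u s)}.Finite := by
  classical
  -- the constants
  have hrat : ∀ l, Pool.Agent.Y226.rA (α l : algebraicClosure ℚ ℂ) = ((α l : ℚ) : ℂ) :=
    fun l => map_ratCast _ _
  have h1 := fun l => Pool.Agent.V8H78.MP.mainKW K (m := m) G hG A B d hA hB
    (α l : algebraicClosure ℚ ℂ) (by
      intro I hI y hyG hyI
      rw [hrat l] at hyG hyI
      by_contra hy0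
      obtain ⟨i, hi, h1⟩ := hpos l I hI y ⟨hy0, hyG⟩
      exact h1 (hyI i hi)) ∅ (fun _ h => absurd h (Finset.notMem_empty _))
  choose W hW0 hW using h1
  choose W' hW'0 hW' using fun l => Pool.Agent.V8H78.MP.near_fam a q c
    (α l : algebraicClosure ℚ ℂ) (hpole l) (hW0 l)
  set D : ℕ := ∏ l, W' l with hD
  have hD0 : 0 < D := Finset.prod_pos fun l _ => hW'0 l
  -- near a pole
  have hnear : ∀ (u : algebraicClosure ℚ ℂ) (l : Fin M) (p : ℕ) [Fact p.Prime]
      (φ : algebraicClosure ℚ ℂ →+* ℂ_[p]), ‖φ (u - (α l : algebraicClosure ℚ ℂ))‖ < ‖(W' l : ℂ_[p])‖ →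
      (∀ i, (q i).eval u ≠ 0) → ∀ s : Fin n → ℂ, (∀ i, IsIntegral ℤ (s i)) →
      ZilberPink K m (member G A B a q c (u : ℂ) s) := by
    intro u l p hpf φ hu hqu s hs
    have hsQ : ∀ i, s i ∈ algebraicClosure ℚ ℂ := by
      intro i
      rw [mem_algebraicClosure_iff]
      exact ((hs i).tower_top (A := ℚ)).isAlgebraic
    let s' : Fin n → algebraicClosure ℚ ℂ := fun i => ⟨s i, hsQ i⟩
    have hs' : ∀ i, IsIntegral ℤ (s' i) := by
      intro i
      have h1 : IsIntegral ℤ (algebraMap (algebraicClosure ℚ ℂ) ℂ (s' i)) := hs i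
      exact (isIntegral_algebraMap_iff (algebraMap (algebraicClosure ℚ ℂ) ℂ).injective).1 h1
    obtain ⟨hu1, hu2⟩ := hW' l ℂ_[p] φ u hu
    let t : Fin n → algebraicClosure ℚ ℂ := fun i => (a i).eval u / (q i).eval u
    let σ : Fin n → algebraicClosure ℚ ℂ := fun i => s' i * (c i).eval u / (q i).eval u
    have hts : ∀ i, max 1 ‖φ (σ i / W l)‖ < ‖φ (t i)‖ := fun i => hu2 i (hqu i) (s' i) (hs' i)
    have hnorm : ‖(p : ℂ_[p])‖ = (p : ℝ)⁻¹ := by
      have h := PadicComplex.norm_extends' (p := p) (p : ℚ_[p])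
      rw [Padic.norm_p] at h
      rw [← h]
      congr 1
      simp
    have h1 : (1 : ℝ) < p := by exact_mod_cast hpf.out.one_lt
    have hp0 : 0 < ‖(p : ℂ_[p])‖ := by
      rw [hnorm]
      exact inv_pos.2 (by linarith)
    have hp1 : ‖(p : ℂ_[p])‖ < 1 := by
      rw [hnorm]
      exact inv_lt_one_of_one_lt₀ h1
    have hfin : ∀ i j, (Pool.Agent.V8H78.MP.Lev (φ (t i)) (φ (σ i / W l)) (φ (t j))
        (φ (σ j / W l))).Finite := fun i j =>
      Pool.Agent.V8H78.MP.Lev_finite2 (p := p) hp0 hp1 (hts i) (hts j)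
    refine ⟨Finset.univ.biUnion fun ij : Fin n × Fin n => (hfin ij.1 ij.2).toFinset, ?_, ?_⟩
    · intro M hM
      obtain ⟨ij, -, h⟩ := Finset.mem_biUnion.1 hM
      exact Pool.Agent.V8H78.MP.Lev_pos ((hfin ij.1 ij.2).mem_toFinset.1 h)
    intro r Z
    have hup := Pool.Agent.V8H78.MP.upgrade K (m := m) (r := r)
      (member G A B a q c (u : ℂ) s ∩ Z.locus)
      (fun i j M => i ≠ j ∧ (∃ l, Z.cls i = some l ∧ Z.cls j = some l) ∧
        M ∈ Pool.Agent.V8H78.MP.Lev (φ (t i)) (φ (σ i / W l)) (φ (t j)) (φ (σ j / W l)))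
      (fun i j M h => Pool.Agent.V8H78.MP.Lev_pos h.2.2)
      (by
        rintro x ⟨-, z, hz⟩ i j M ⟨-, ⟨l, hi, -⟩, -⟩
        obtain ⟨w, -, hw⟩ := (hz i).2 l hi
        exact ⟨w, hw⟩)
      (by
        rintro x ⟨⟨y, hy, hxy⟩, hxZ⟩ S hS
        obtain ⟨z, hz⟩ := hxZ
        have hc1 : ∀ i, Z.cls i = none →
            IsIntegral (Algebra.adjoin ℤ ((∅ : Finset ℂ) : Set ℂ)) (x i) := by
          intro i hi
          rw [(hz i).1 hi]
          rcases Z.allowed i with ⟨τ, hτ, hc⟩ | h
          · rw [hc]
            exact (singular_modulus_integral τ hτ).tower_top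
          · exact h.tower_top
        have hc2 : ∀ i j l, Z.cls i = some l → Z.cls j = some l →
            ∃ (τ w : ℍ) (a b c d : ℤ), 0 < a * d - b * c ∧ (w : ℂ) * (c * τ + d) = a * τ + b ∧
              x i = jj τ ∧ x j = jj w := by
          intro i j l hi hj
          obtain ⟨w, hw, hxw⟩ := (hz i).2 l hi
          obtain ⟨w', hw', hxw'⟩ := (hz j).2 l hj
          obtain ⟨a, b, c, e, e1, e2⟩ := isogeny_rel (Z.det_pos i) hw hw'
          exact ⟨w, w', a, b, c, e, by
            rw [e1]
            exact mul_pos (Z.det_pos i) (Z.det_pos j), e2, hxw, hxw'⟩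
        have hev : ∀ P : Polynomial (algebraicClosure ℚ ℂ),
            Polynomial.aeval (u : ℂ) P = ((P.eval u : algebraicClosure ℚ ℂ) : ℂ) := by
          intro P
          have := Polynomial.aeval_algebraMap_apply ℂ u P
          rw [Polynomial.coe_aeval_eq_eval] at this
          exact this
        have hc3 : ∀ i, formAt (u : ℂ) (B i) y * (x i - Pool.Agent.Y226.rA (t i)) =
            Pool.Agent.Y226.rA (σ i) * formAt (u : ℂ) (A i) y := by
          intro i
          have h2 := hxy i
          have hq0 : Pool.Agent.Y226.rA ((q i).eval u) ≠ 0 := (map_ne_zero _).2 (hqu i)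
          rw [hev, hev, hev] at h2
          change formAt (u : ℂ) (B i) y * (Pool.Agent.Y226.rA ((q i).eval u) * x i -
            Pool.Agent.Y226.rA ((a i).eval u)) = Pool.Agent.Y226.rA (s' i) *
            Pool.Agent.Y226.rA ((c i).eval u) * formAt (u : ℂ) (A i) y at h2
          simp only [t, σ]
          rw [map_div₀, map_div₀, map_mul]
          field_simp
          linear_combination h2
        rcases hW l p hpf.out ℂ_[p] φ hp0 hp1
          (Or.inr fun _ h => absurd h (Finset.notMem_empty _)) u hu1 t σ hts r Z.cls x hc1 hc2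
          y hy.1 hy.2 hc3 S hS with h | ⟨i, j, hij, hl, M, hM, h0⟩
        · exact Or.inl h
        · exact Or.inr ⟨i, j, M, ⟨hij, hl, hM⟩, h0⟩)
    refine ⟨fun W' hW' hcl hprime => ?_, fun x hx S hS => ?_⟩
    · rcases hup.1 W' hW' hcl hprime with h | ⟨i, j, M, ⟨hij, -, hM⟩, h⟩
      · exact Or.inl h
      · exact Or.inr ⟨i, j, hij, M, Finset.mem_biUnion.2
          ⟨(i, j), Finset.mem_univ _, (hfin i j).mem_toFinset.2 hM⟩, h⟩
    · rcases hup.2 x hx S hS with h | ⟨i, j, M, ⟨hij, -, hM⟩, h⟩
      · exact Or.inl h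
      · exact Or.inr ⟨i, j, hij, M, Finset.mem_biUnion.2
          ⟨(i, j), Finset.mem_univ _, (hfin i j).mem_toFinset.2 hM⟩, h⟩
  -- the exceptional parameters
  have hfin := (Pool.Agent.V8H78.MP.FinW.finite_Q hα hD0).union
    (Set.finite_iUnion fun i : Fin n => (((q i).aroots ℂ).toFinset.finite_toSet))
  refine hfin.subset ?_
  rintro u ⟨halg, hdeg, s, hs, hno⟩
  by_cases hroot : ∃ i, Polynomial.aeval u (q i) = 0
  · right
    obtain ⟨i, hi⟩ := hroot
    rw [Set.mem_iUnion]
    refine ⟨i, ?_⟩
    rw [Finset.mem_coe, Multiset.mem_toFinset, Polynomial.mem_aroots]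
    exact ⟨hq i, hi⟩
  push Not at hroot
  left
  refine ⟨halg, hdeg, fun l => ?_⟩
  let u' : algebraicClosure ℚ ℂ := ⟨u, mem_algebraicClosure_iff.2 halg⟩
  have hev : ∀ P : Polynomial (algebraicClosure ℚ ℂ),
      Polynomial.aeval u P = ((P.eval u' : algebraicClosure ℚ ℂ) : ℂ) := by
    intro P
    have := Polynomial.aeval_algebraMap_apply ℂ u' P
    rw [Polynomial.coe_aeval_eq_eval] at this
    exact this
  have hqu : ∀ i, (q i).eval u' ≠ 0 := by
    intro i h
    apply hroot i
    rw [hev, h]
    rfl
  have hfar : ∀ (p : ℕ) [Fact p.Prime] (φ : algebraicClosure ℚ ℂ →+* ℂ_[p]),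
      ‖(W' l : ℂ_[p])‖ ≤ ‖φ (u' - (α l : algebraicClosure ℚ ℂ))‖ := by
    intro p _ φ
    by_contra hlt
    push Not at hlt
    exact hno (hnear u' l p φ hlt hqu s hs)
  have hne : u ≠ (α l : ℂ) := by
    intro h
    have h2 : u' - (α l : algebraicClosure ℚ ℂ) = 0 := by
      apply Subtype.ext
      show u - _ = 0
      rw [h]
      have : (((α l : ℚ) : algebraicClosure ℚ ℂ) : ℂ) = ((α l : ℚ) : ℂ) := hrat l
      rw [this, sub_self]
    have : Fact (Nat.Prime 2) := ⟨Nat.prime_two⟩
    have h3 := hfar 2 (IsAlgClosed.lift (R := ℚ) (S := algebraicClosure ℚ ℂ) (M := ℂ_[2])).toRingHom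
    rw [h2, map_zero, norm_zero] at h3
    have h4 : 0 < ‖(W' l : ℂ_[2])‖ := norm_pos_iff.2 (by exact_mod_cast (hW'0 l).ne')
    exact absurd h3 (not_le.2 h4)
  refine ⟨hne, ?_⟩
  by_contra hint
  have hne' : u' - (α l : algebraicClosure ℚ ℂ) ≠ 0 := by
    intro h
    apply hne
    have h2 := congrArg (fun z : algebraicClosure ℚ ℂ => (z : ℂ)) h
    have h3 : u - (((α l : ℚ) : algebraicClosure ℚ ℂ) : ℂ) = 0 := h2
    have h4 : (((α l : ℚ) : algebraicClosure ℚ ℂ) : ℂ) = ((α l : ℚ) : ℂ) := hrat l
    rw [h4] at h3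
    exact sub_eq_zero.1 h3
  obtain ⟨p, hpf, φ, hφ⟩ := Pool.Agent.V8H78.MP.exists_place
    (β := (D : algebraicClosure ℚ ℂ) / (u' - (α l : algebraicClosure ℚ ℂ))) (by
      have h4 : (((α l : ℚ) : algebraicClosure ℚ ℂ) : ℂ) = ((α l : ℚ) : ℂ) := hrat l
      have h5 : (((D : algebraicClosure ℚ ℂ) / (u' - (α l : algebraicClosure ℚ ℂ)) :
          algebraicClosure ℚ ℂ) : ℂ) = (D : ℂ) / (u - (α l : ℂ)) := by
        rw [← h4]
        rfl
      rw [h5]
      exact hint)
  have hu0 : 0 < ‖φ (u' - (α l : algebraicClosure ℚ ℂ))‖ := norm_pos_iff.2 ((map_ne_zero φ).2 hne')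
  rw [map_div₀, norm_div, map_natCast, one_lt_div hu0] at hφ
  have h6 : ‖(D : ℂ_[p])‖ ≤ ‖(W' l : ℂ_[p])‖ := by
    obtain ⟨e, he⟩ : W' l ∣ D := Finset.dvd_prod_of_mem _ (Finset.mem_univ l)
    rw [he]
    push_cast
    rw [norm_mul]
    exact mul_le_of_le_one_right (norm_nonneg _) (Pool.Agent.V8H78.MP.nnat' e)
  exact absurd (hfar p φ) (not_le.2 (hφ.trans_le h6))

end Pool.Agent.Results.MP_d83ecd_ag.BoundedDegreeParameters
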