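import Pool.Agent.V8H78.MP.RatB
import Pool.Agent.V8H78.MP.Gen
import Pool.Agent.V8H78.MP.Dens2

/-!
# MP_d83ecd_ag: Zilber-Pink for 100% of the rational translates of subvarieties of `Y(1)^n`

`Y(1)^n` is identified with `ℂ^n` by the elliptic modular function `jj = j = E₄³ / Δ`.

**Setting.** Let `B ⊆ P^N` be a complex projective algebraic set, defined by forms `G k`, and let
`f_i = A_i / B_i`, `i = 1, …, n`, be quotients of forms of the same degree `d_i`, all with
coefficients in a countable field `K ⊂ ℂ`. They give a map `f` from `B` to `(P¹)^n`, `V = f(B)`.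
For vectors `t`, `s` let `t + s V = {x | ∃ y ∈ B, ∀ i, B_i (y) (x_i - t_i) = s_i A_i (y)}`
(`affineImage`), a closed subset of `Y(1)^n`.

The only assumption is that the polar divisors are in general position: no point of `B` lies on
`m + 1` of the divisors `{B_i = 0}` (`hpos`; for `B` of dimension `m` this is the case in general).
The zeros of the `f_i`, and of the `f_i - c`, can be arbitrary.

The special subvarieties `Z` are those of `Y(1)^n`; more generally their constant coordinates may be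
isogenous to an element of a given finite set `Γ ⊂ K`, or integral over `ℤ[Γ]`.

**Theorem.** For 100% of all `t ∈ ℚ^n`, ordered by height, the following holds: for ALL vectors
`s` of algebraic integers the variety `t + s V` has no atypical intersection with any special
subvariety at all: every irreducible closed subset `W` of `(t + s V) ∩ Z` has dimension at most
`dim Z + m - n`, and the same holds for the transcendence degrees over `K` of all points of
`(t + s V) ∩ Z`. That is, the number of the vectors `t ∈ ℚ^n` of height `≤ H` for which this fails,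
divided by the number of all vectors `t ∈ ℚ^n` of height `≤ H`, tends to `0` for `H → ∞`. The height
is the usual height of the point `(1 : t_1 : … : t_n)` (`HeightLe`).

The proof shows more precisely (`criterion`) that there is a number `D`, which depends only on `B`,
`f` and `Γ`, such that this holds for `t = a / Q`, if there are `n (n - 1) / 2 + 1` prime divisors
`p_0, p_1, …` of `Q` which are larger than `D`, prime to all the `a_i`, and such that
`a_i ^ (p_l - 1)` and `a_j ^ (p_l - 1)` are not congruent modulo `p_l'` for `i < j`, `l < l'`.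
-/

namespace Pool.Agent.Results.MP_d83ecd_ag.DensityOneTranslates

open H294ZP UpperHalfPlane MvPolynomial Pool.Agent.W282.ZP

/-- A special subvariety of `Y(1)^n = ℂ^n` of dimension `r` (with more constants allowed): a map
`cls` from the coordinates onto `r` classes (`none` for constant coordinates), an integral matrix
of positive determinant for every coordinate, and a constant for every coordinate, which is a
special point, isogenous to an element of `Γ`, or integral over `ℤ[Γ]`. -/
structure SpecialVariety (Γ : Finset ℂ) (n r : ℕ) where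
  cls : Fin n → Option (Fin r)
  surj : ∀ l : Fin r, ∃ i, cls i = some l
  mat : Fin n → Matrix (Fin 2) (Fin 2) ℤ
  det_pos : ∀ i, 0 < (mat i).det
  const : Fin n → ℂ
  allowed : ∀ i, AllowedConst Γ (const i)

/-- The points of the special subvariety: the constant coordinates are the given constants, and the
coordinates of class `l` are `j (g_i z_l)`, with a free parameter `z_l` in the upper half plane. -/
def SpecialVariety.locus {Γ : Finset ℂ} {n r : ℕ} (Z : SpecialVariety Γ n r) :
    Set (Fin n → ℂ) :=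
  {x | ∃ z : Fin r → ℍ, ∀ i, (Z.cls i = none → x i = Z.const i) ∧
    ∀ l, Z.cls i = some l → ∃ w : ℍ,
      (w : ℂ) * (Z.mat i 1 0 * z l + Z.mat i 1 1) = Z.mat i 0 0 * z l + Z.mat i 0 1 ∧
      x i = jj w}

/-- `y` is a vector of homogeneous coordinates of a point of the projective algebraic set `B` defined
by the forms `G k`. -/
def OnB {K : Subfield ℂ} {N : ℕ} {κ : Type*} (G : κ → MvPolynomial (Fin (N + 1)) K)
    (y : Fin (N + 1) → ℂ) : Prop :=
  y ≠ 0 ∧ ∀ k, aeval y (G k) = 0

/-- The closed subset `X = t + s V` of `Y(1)^n`. -/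
def affineImage {K : Subfield ℂ} {N n : ℕ} {κ : Type*} (G : κ → MvPolynomial (Fin (N + 1)) K)
    (A B : Fin n → MvPolynomial (Fin (N + 1)) K) (t s : Fin n → ℂ) : Set (Fin n → ℂ) :=
  {x | ∃ y, OnB G y ∧ ∀ i, aeval y (B i) * (x i - t i) = s i * aeval y (A i)}

/-- `X` has no intersection of dimension larger than `r + m - n` with special subvarieties `Z` of
dimension `r`: every irreducible closed subset `W` of `X ∩ Z` has dimension at most `r + m - n`, and
every point of `X ∩ Z` has transcendence degree at most `r + m - n` over `K`. -/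
def NoAtypical (K : Subfield ℂ) (Γ : Finset ℂ) {n : ℕ} (m : ℕ) (X : Set (Fin n → ℂ)) : Prop :=
  ∀ (r : ℕ) (Z : SpecialVariety Γ n r),
    (∀ W ⊆ X ∩ Z.locus, zcl W ⊆ W → (idealOf W).IsPrime →
      zdim W + (n : Cardinal) ≤ (r : Cardinal) + (m : Cardinal)) ∧
    ∀ x ∈ X ∩ Z.locus, ∀ S : Finset (Fin n), AlgebraicIndependent K (fun i : S => x i) →
      S.card + n ≤ r + m

/-- `t ∈ ℚ^n` has height at most `H`: it can be written as `t = a / Q` with integers `|a_i| ≤ H` and
`0 < Q ≤ H`. (The usual height of `(1 : t_1 : … : t_n)` is the smallest such `H`.) -/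
def HeightLe {n : ℕ} (H : ℕ) (t : Fin n → ℚ) : Prop :=
  ∃ (a : Fin n → ℤ) (Q : ℕ), 0 < Q ∧ Q ≤ H ∧ (∀ i, |a i| ≤ H) ∧ ∀ i, t i = a i / Q

/-- The criterion for the rational vector `t = a / Q`. -/
theorem criterion {κ : Type*} (K : Subfield ℂ) [Countable K] (N n m : ℕ)
    (G : κ → MvPolynomial (Fin (N + 1)) K) (hG : ∀ k, ∃ e, (G k).IsHomogeneous e)
    (A B : Fin n → MvPolynomial (Fin (N + 1)) K) (d : Fin n → ℕ)
    (hA : ∀ i, (A i).IsHomogeneous (d i)) (hB : ∀ i, (B i).IsHomogeneous (d i))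
    (hpos : ∀ I : Finset (Fin n), I.card = m + 1 → ∀ y, OnB G y → ∃ i ∈ I, aeval y (B i) ≠ 0)
    (Γ : Finset ℂ) (hΓ : ∀ γ ∈ Γ, γ ∈ K) :
    ∃ D : ℕ, ∀ (p : Fin (n.choose 2 + 1) → ℕ), (∀ l, (p l).Prime ∧ D < p l) →
      ∀ (a : Fin n → ℤ) (Q : ℕ), 0 < Q → (∀ l, p l ∣ Q) → (∀ l i, ¬ (p l : ℤ) ∣ a i) →
      (∀ l l', l < l' → ∀ i j, i < j → ¬ (p l' : ℤ) ∣ a i ^ (p l - 1) - a j ^ (p l - 1)) →
      ∀ s : Fin n → ℂ, (∀ i, IsIntegral ℤ (s i)) →
        NoAtypical K Γ m (affineImage G A B (fun i => (a i : ℂ) / Q) s) := by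
  classical
  obtain ⟨D, hD⟩ := Pool.Agent.V8H78.MP.critQ K (m := m) G hG A B d hA hB
    (by
      intro I hI y hyG hyI
      by_contra hy0
      obtain ⟨i, hi, h1⟩ := hpos I hI y ⟨hy0, hyG⟩
      exact h1 (hyI i hi)) Γ hΓ
  refine ⟨D, fun p hp a Q hQ hpQ hpa hpp s hs r Z => ?_⟩
  have hsQ : ∀ i, s i ∈ algebraicClosure ℚ ℂ := by
    intro i
    rw [mem_algebraicClosure_iff]
    exact ((hs i).tower_top (A := ℚ)).isAlgebraic
  let s' : Fin n → algebraicClosure ℚ ℂ := fun i => ⟨s i, hsQ i⟩
  have hs' : ∀ i, IsIntegral ℤ (s' i) := by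
    intro i
    have h1 : IsIntegral ℤ (algebraMap (algebraicClosure ℚ ℂ) ℂ (s' i)) := hs i
    exact (isIntegral_algebraMap_iff (algebraMap (algebraicClosure ℚ ℂ) ℂ).injective).1 h1
  -- the pointwise statement
  have hpt : ∀ x ∈ affineImage G A B (fun i => (a i : ℂ) / Q) s ∩ Z.locus,
      ∀ S : Finset (Fin n), AlgebraicIndependent K (fun i : S => x i) →
      S.card + n ≤ r + m := by
    rintro x ⟨⟨y, hy, hxy⟩, hxZ⟩ S hS
    obtain ⟨z, hz⟩ := hxZ
    refine hD p hp Q a s' hs' hQ hpQ hpa hpp r Z.cls x ?_ ?_ y hy.1 hy.2 hxy S hS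
    · intro i hi
      rw [(hz i).1 hi]
      exact (Z.allowed i).isIntegral
    · intro i j l hi hj
      obtain ⟨w, hw, hxw⟩ := (hz i).2 l hi
      obtain ⟨w', hw', hxw'⟩ := (hz j).2 l hj
      obtain ⟨a, b, c, e, e1, e2⟩ := isogeny_rel (Z.det_pos i) hw hw'
      exact ⟨w, w', a, b, c, e, by
        rw [e1]
        exact mul_pos (Z.det_pos i) (Z.det_pos j), e2, hxw, hxw'⟩
  refine ⟨?_, hpt⟩
  intro W hW hcl hprime
  obtain ⟨x, hxW, -, T, hT, hdim⟩ := Pool.Agent.V8H78.MP.exists_generic K W hprime hcl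
    (β := Empty) (fun q => q.elim) (fun q => q.elim)
  have h2 := hpt x (hW hxW) T hT
  calc zdim W + (n : Cardinal) ≤ (T.card : Cardinal) + (n : Cardinal) := by gcongr
    _ = ((T.card + n : ℕ) : Cardinal) := by push_cast; rfl
    _ ≤ ((r + m : ℕ) : Cardinal) := by exact_mod_cast h2
    _ = (r : Cardinal) + (m : Cardinal) := by push_cast; rfl

/-- For 100% of all rational vectors `t` the varieties `t + s V` do not have any atypical
intersection with special subvarieties, for all vectors `s` of algebraic integers. -/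
theorem result {κ : Type*} (K : Subfield ℂ) [Countable K] (N n m : ℕ)
    (G : κ → MvPolynomial (Fin (N + 1)) K) (hG : ∀ k, ∃ e, (G k).IsHomogeneous e)
    (A B : Fin n → MvPolynomial (Fin (N + 1)) K) (d : Fin n → ℕ)
    (hA : ∀ i, (A i).IsHomogeneous (d i)) (hB : ∀ i, (B i).IsHomogeneous (d i))
    (hpos : ∀ I : Finset (Fin n), I.card = m + 1 → ∀ y, OnB G y → ∃ i ∈ I, aeval y (B i) ≠ 0)
    (Γ : Finset ℂ) (hΓ : ∀ γ ∈ Γ, γ ∈ K) :
    Filter.Tendsto (fun H : ℕ =>
      (Nat.card {t : Fin n → ℚ // HeightLe H t ∧ ∃ s : Fin n → ℂ, (∀ i, IsIntegral ℤ (s i)) ∧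
        ¬ NoAtypical K Γ m (affineImage G A B (fun i => (t i : ℂ)) s)} : ℝ) /
      Nat.card {t : Fin n → ℚ // HeightLe H t}) Filter.atTop (nhds 0) := by
  classical
  obtain ⟨D, hcrit⟩ := criterion K N n m G hG A B d hA hB hpos Γ hΓ
  have hBd : ∀ (a : Fin n → ℤ) (Q : ℕ), 0 < Q →
      Pool.Agent.V8H78.MP.GoodP (n.choose 2 + 1) D a Q →
      ¬ ∃ s : Fin n → ℂ, (∀ i, IsIntegral ℤ (s i)) ∧
        ¬ NoAtypical K Γ m (affineImage G A B
          (fun i => (((fun i => (a i : ℚ) / Q : Fin n → ℚ) i : ℚ) : ℂ)) s) := by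
    rintro a Q hQ ⟨p, hp, hpQ, hpa, hpp⟩ ⟨s, hs, hno⟩
    apply hno
    have h1 := hcrit p hp a Q hQ hpQ hpa hpp s hs
    have h2 : (fun i => (((fun i => (a i : ℚ) / Q : Fin n → ℚ) i : ℚ) : ℂ)) =
        fun i => (a i : ℂ) / Q := by
      funext i
      push_cast
      rfl
    rw [h2]
    exact h1
  rcases Nat.eq_zero_or_pos n with hn | hn
  · subst hn
    have hno : ∀ t : Fin 0 → ℚ, ¬ ∃ s : Fin 0 → ℂ, (∀ i, IsIntegral ℤ (s i)) ∧
        ¬ NoAtypical K Γ m (affineImage G A B (fun i => (t i : ℂ)) s) := by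
      intro t
      obtain ⟨p, hpD, hp⟩ := Nat.exists_infinite_primes (D + 1)
      have h1 := hBd (fun i => i.elim0) p hp.pos ⟨fun _ => p, fun _ => ⟨hp, Nat.lt_of_succ_le hpD⟩,
        fun _ => dvd_refl p, fun _ i => i.elim0, fun _ _ _ i => i.elim0⟩
      have h2 : t = fun i => (((fun i : Fin 0 => i.elim0) i : ℤ) : ℚ) / p :=
        funext fun i => i.elim0
      rw [h2]
      exact h1
    have hzero : ∀ H : ℕ, (Nat.card {t : Fin 0 → ℚ // HeightLe H t ∧
        ∃ s : Fin 0 → ℂ, (∀ i, IsIntegral ℤ (s i)) ∧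
        ¬ NoAtypical K Γ m (affineImage G A B (fun i => (t i : ℂ)) s)} : ℝ) = 0 := by
      intro H
      have : IsEmpty {t : Fin 0 → ℚ // HeightLe H t ∧
        ∃ s : Fin 0 → ℂ, (∀ i, IsIntegral ℤ (s i)) ∧
        ¬ NoAtypical K Γ m (affineImage G A B (fun i => (t i : ℂ)) s)} :=
        ⟨fun t => hno t.1 t.2.2⟩
      rw [Nat.card_of_isEmpty, Nat.cast_zero]
    simp only [hzero, zero_div]
    exact tendsto_const_nhds
  · exact Pool.Agent.V8H78.MP.dens_rat (n.choose 2 + 1) D n ⟨0, hn⟩ _ hBd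

end Pool.Agent.Results.MP_d83ecd_ag.DensityOneTranslates
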