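import Pool.Agent.V8H78.MP.FamW

/-!
# MP_d83ecd_ag: Zilber-Pink for all large translates, at any one place, of subvarieties of `Y(1)^n`

`Y(1)^n` is identified with `ℂ^n` by the elliptic modular function `jj = j = E₄³ / Δ`.

**Setting.** Let `B ⊆ P^N` be a complex projective algebraic set, defined by forms `G k`, and let
`f_i = A_i / B_i`, `i = 1, …, n`, be quotients of forms of the same degree `d_i`, all with
coefficients in a countable field `K ⊂ ℂ`. They give a map `f` from `B` to `(P¹)^n`, `V = f(B)`.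
For vectors `t`, `s` let `X = t + s V = {x | ∃ y ∈ B, ∀ i, B_i (y) (x_i - t_i) = s_i A_i (y)}`
(`affineImage`), a closed subset of `Y(1)^n`.

The only assumption is that the polar divisors are in general position: no point of `B` lies on
`m + 1` of the divisors `{B_i = 0}` (`hpos`; for `B` of dimension `m` this is the case in general).
The zeros of the `f_i`, and of the `f_i - c`, can be arbitrary.

The special subvarieties `Z` are those of `Y(1)^n`; more generally their constant coordinates may be
isogenous to an element of a given finite set `Γ ⊂ K`, or integral over `ℤ[Γ]`.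

**Theorem.** There is a positive integer `W`, which depends only on `B`, `f` and `Γ`, with the
following property. Let `p` be ANY prime number (`p` not a divisor of `W`, if the elements of `Γ` are
not algebraic integers; for special subvarieties `Γ` is empty and there is no condition), `φ` an
embedding of the algebraic numbers into `ℂ_p`, and let `t_i`, `s_i` be algebraic numbers (of any
degrees) with `|t_i| > max (1, |s_i / W|)` for the absolute value given by `φ`. Then the union of all
atypical intersections of `X = t + s V` with special subvarieties is contained in a finite union of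
proper special subvarieties, namely of modular correspondences `T_M (x_i, x_j) = 0`, `i ≠ j`, whose
levels `M` are in the finite sets `Levels φ t (s / W) i j`: the numbers `M = a b g²` with coprime `a`,
`b` such that `|t_i|^a = |t_j|^b` and such that `t_i^a / t_j^b` is close to a root of unity of order
`g`, up to the precision `max (1, |s_i / W|) / |t_i|`, `max (1, |s_j / W|) / |t_j|`. That is: every
irreducible closed subset `W'` of `X ∩ Z` has dimension at most `dim Z + m - n`, or there are `i ≠ j`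
and `M` in `Levels φ t (s / W) i j` such that `x_i` and `x_j` are related by an isogeny of degree `M`
for all `x ∈ W'`; the same holds for the transcendence degrees of the points of `X ∩ Z` over `K`.

For example let `t_i = a_i / Q` be rational numbers, `a_i` prime to `Q`, and let the `s_i` be
algebraic integers: the theorem applies to all `Q` which do not divide `W`.
-/

namespace Pool.Agent.Results.MP_d83ecd_ag.EveryPlace

open H294ZP UpperHalfPlane MvPolynomial Pool.Agent.W282.ZP

/-- A special subvariety of `Y(1)^n = ℂ^n` of dimension `r` (with more constants allowed): a map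
`cls` from the coordinates onto `r` classes (`none` for constant coordinates), an integral matrix
of positive determinant for every coordinate, and a constant for every coordinate, which is a
special point, isogenous to an element of `Γ`, or integral over `ℤ[Γ]`. -/
structure SpecialVariety (Γ : Finset ℂ) (n r : ℕ) where
  cls : Fin n → Option (Fin r)
  surj : ∀ l : Fin r, ∃ i, cls i = some l
  mat : Fin n → Matrix (Fin 2) (Fin 2) ℤ
  det_pos : ∀ i, 0 < (mat i).det
  const : Fin n → ℂ
  allowed : ∀ i, AllowedConst Γ (const i)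

/-- The points of the special subvariety: the constant coordinates are the given constants, and the
coordinates of class `l` are `j (g_i z_l)`, with a free parameter `z_l` in the upper half plane. -/
def SpecialVariety.locus {Γ : Finset ℂ} {n r : ℕ} (Z : SpecialVariety Γ n r) :
    Set (Fin n → ℂ) :=
  {x | ∃ z : Fin r → ℍ, ∀ i, (Z.cls i = none → x i = Z.const i) ∧
    ∀ l, Z.cls i = some l → ∃ w : ℍ,
      (w : ℂ) * (Z.mat i 1 0 * z l + Z.mat i 1 1) = Z.mat i 0 0 * z l + Z.mat i 0 1 ∧
      x i = jj w}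

/-- `y` is a vector of homogeneous coordinates of a point of the projective algebraic set `B` defined
by the forms `G k`. -/
def OnB {K : Subfield ℂ} {N : ℕ} {κ : Type*} (G : κ → MvPolynomial (Fin (N + 1)) K)
    (y : Fin (N + 1) → ℂ) : Prop :=
  y ≠ 0 ∧ ∀ k, aeval y (G k) = 0

/-- The closed subset `X = t + s V` of `Y(1)^n`. -/
def affineImage {K : Subfield ℂ} {N n : ℕ} {κ : Type*} (G : κ → MvPolynomial (Fin (N + 1)) K)
    (A B : Fin n → MvPolynomial (Fin (N + 1)) K) (t s : Fin n → ℂ) : Set (Fin n → ℂ) :=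
  {x | ∃ y, OnB G y ∧ ∀ i, aeval y (B i) * (x i - t i) = s i * aeval y (A i)}

/-- `x` and `y` are the `j`-invariants of two points of the upper half plane related by an integral
matrix of determinant `M`: `(x, y)` is a point of the modular correspondence `T_M`. -/
def Isogenous (M : ℕ) (x y : ℂ) : Prop :=
  ∃ (τ w : ℍ) (a b c d : ℤ), a * d - b * c = M ∧ (w : ℂ) * (c * τ + d) = a * τ + b ∧
    x = jj τ ∧ y = jj w

/-- The levels of the exceptional correspondences between the coordinates `i` and `j`. -/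
def Levels {p : ℕ} [Fact p.Prime] (φ : algebraicClosure ℚ ℂ →+* ℂ_[p]) {n : ℕ}
    (t s : Fin n → algebraicClosure ℚ ℂ) (i j : Fin n) : Set ℕ :=
  {M | ∃ (a b g : ℕ) (ζ : ℂ_[p]), (0 < a ∧ 0 < b ∧ a.Coprime b ∧ 0 < g ∧ IsPrimitiveRoot ζ g ∧
    ‖φ (t i)‖ ^ a = ‖φ (t j)‖ ^ b ∧ ‖φ (t i) ^ a / φ (t j) ^ b - ζ‖ ≤
      max (max 1 ‖φ (s i)‖ / ‖φ (t i)‖) (max 1 ‖φ (s j)‖ / ‖φ (t j)‖)) ∧ M = a * b * g ^ 2}

/-- Zilber-Pink for the affine images `t + s V` of a projective algebraic set, for all
algebraic `t` and `s` with `|t_i| > max (1, |s_i / W|)` at any place. -/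
theorem result {κ : Type*} (K : Subfield ℂ) [Countable K] (N n m : ℕ)
    (G : κ → MvPolynomial (Fin (N + 1)) K) (hG : ∀ k, ∃ e, (G k).IsHomogeneous e)
    (A B : Fin n → MvPolynomial (Fin (N + 1)) K) (d : Fin n → ℕ)
    (hA : ∀ i, (A i).IsHomogeneous (d i)) (hB : ∀ i, (B i).IsHomogeneous (d i))
    (hpos : ∀ I : Finset (Fin n), I.card = m + 1 → ∀ y, OnB G y → ∃ i ∈ I, aeval y (B i) ≠ 0)
    (Γ : Finset ℂ) (hΓ : ∀ γ ∈ Γ, γ ∈ K) :
    ∃ W : ℕ, 0 < W ∧ ∀ (p : ℕ) [Fact p.Prime] (φ : algebraicClosure ℚ ℂ →+* ℂ_[p])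
        (t s : Fin n → algebraicClosure ℚ ℂ), (¬ p ∣ W ∨ ∀ γ ∈ Γ, IsIntegral ℤ γ) →
        (∀ i, max 1 ‖φ (s i / W)‖ < ‖φ (t i)‖) →
        (∀ i j, (Levels φ t (fun i => s i / W) i j).Finite) ∧
        ∀ (r : ℕ) (Z : SpecialVariety Γ n r),
          (∀ W' ⊆ affineImage G A B (fun i => t i) (fun i => s i) ∩ Z.locus, zcl W' ⊆ W' →
            (idealOf W').IsPrime →
            zdim W' + (n : Cardinal) ≤ (r : Cardinal) + (m : Cardinal) ∨
            ∃ i j, i ≠ j ∧ ∃ M ∈ Levels φ t (fun i => s i / W) i j,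
              ∀ x ∈ W', Isogenous M (x i) (x j)) ∧
          ∀ x ∈ affineImage G A B (fun i => t i) (fun i => s i) ∩ Z.locus, ∀ S : Finset (Fin n),
            AlgebraicIndependent K (fun i : S => x i) → S.card + n ≤ r + m ∨
            ∃ i j, i ≠ j ∧ ∃ M ∈ Levels φ t (fun i => s i / W) i j,
              Isogenous M (x i) (x j) := by
  classical
  have hev : ∀ (w : ℂ) (P : MvPolynomial (Fin (N + 1)) K) (y : Fin (N + 1) → ℂ),
      Pool.Agent.V8H78.MP.evF w (MvPolynomial.map Polynomial.C P) y = aeval y P := by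
    intro w P y
    rw [Pool.Agent.V8H78.MP.evF, eval₂_map, aeval_def]
    congr 1
    refine RingHom.ext fun b => ?_
    simp
  obtain ⟨W, hW0, hD⟩ := Pool.Agent.V8H78.MP.mainKW K (m := m)
    (fun i => MvPolynomial.map Polynomial.C (G i))
    (fun i => by
      obtain ⟨e, he⟩ := hG i
      exact ⟨e, he.map _⟩)
    (fun i => MvPolynomial.map Polynomial.C (A i)) (fun i => MvPolynomial.map Polynomial.C (B i)) d
    (fun i => (hA i).map _) (fun i => (hB i).map _) 0
    (by
      intro I hI y hyG hyI
      by_contra hy0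
      obtain ⟨i, hi, h1⟩ := hpos I hI y ⟨hy0, fun i => by rw [← hev]; exact hyG i⟩
      exact h1 (by rw [← hev]; exact hyI i hi)) Γ hΓ
  refine ⟨W, hW0, fun p hpf φ t s hΓp hts => ?_⟩
  have hnorm : ‖(p : ℂ_[p])‖ = (p : ℝ)⁻¹ := by
    have h := PadicComplex.norm_extends' (p := p) (p : ℚ_[p])
    rw [Padic.norm_p] at h
    rw [← h]
    congr 1
    simp
  have h1 : (1 : ℝ) < p := by exact_mod_cast hpf.out.one_lt
  have hp0 : 0 < ‖(p : ℂ_[p])‖ := by
    rw [hnorm]
    exact inv_pos.2 (by linarith)
  have hp1 : ‖(p : ℂ_[p])‖ < 1 := by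
    rw [hnorm]
    exact inv_lt_one_of_one_lt₀ h1
  have hW1 : 0 < ‖(W : ℂ_[p])‖ := norm_pos_iff.2 (by exact_mod_cast hW0.ne')
  refine ⟨fun i j => Pool.Agent.V8H78.MP.Lev_finite2 (p := p) hp0 hp1 (hts i) (hts j),
    fun r Z => ?_⟩
  have hup := Pool.Agent.V8H78.MP.upgrade K (m := m) (r := r)
    (affineImage G A B (fun i => t i) (fun i => s i) ∩ Z.locus)
    (fun i j M => i ≠ j ∧ (∃ l, Z.cls i = some l ∧ Z.cls j = some l) ∧
      M ∈ Levels φ t (fun i => s i / W) i j)
    (fun i j M h => Pool.Agent.V8H78.MP.Lev_pos h.2.2)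
    (by
      rintro x ⟨-, z, hz⟩ i j M ⟨-, ⟨l, hi, -⟩, -⟩
      obtain ⟨w, -, hw⟩ := (hz i).2 l hi
      exact ⟨w, hw⟩)
    (by
      rintro x ⟨⟨y, hy, hxy⟩, hxZ⟩ S hS
      obtain ⟨z, hz⟩ := hxZ
      have hc1 : ∀ i, Z.cls i = none → IsIntegral (Algebra.adjoin ℤ (Γ : Set ℂ)) (x i) := by
        intro i hi
        rw [(hz i).1 hi]
        exact (Z.allowed i).isIntegral
      have hc2 : ∀ i j l, Z.cls i = some l → Z.cls j = some l →
          ∃ (τ w : ℍ) (a b c d : ℤ), 0 < a * d - b * c ∧ (w : ℂ) * (c * τ + d) = a * τ + b ∧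
            x i = jj τ ∧ x j = jj w := by
        intro i j l hi hj
        obtain ⟨w, hw, hxw⟩ := (hz i).2 l hi
        obtain ⟨w', hw', hxw'⟩ := (hz j).2 l hj
        obtain ⟨a, b, c, e, e1, e2⟩ := isogeny_rel (Z.det_pos i) hw hw'
        exact ⟨w, w', a, b, c, e, by
          rw [e1]
          exact mul_pos (Z.det_pos i) (Z.det_pos j), e2, hxw, hxw'⟩
      rcases hD p hpf.out ℂ_[p] φ hp0 hp1 hΓp 0 (by simpa using hW0.ne') t s hts r Z.cls x hc1 hc2
        y hy.1 (fun i => by rw [hev]; exact hy.2 i) (fun i => by rw [hev, hev]; exact hxy i) S hS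
        with h | ⟨i, j, hij, hl, M, hM, h0⟩
      · exact Or.inl h
      · exact Or.inr ⟨i, j, M, ⟨hij, hl, hM⟩, h0⟩)
  refine ⟨fun W' hW' hcl hprime => ?_, fun x hx S hS => ?_⟩
  · rcases hup.1 W' hW' hcl hprime with h | ⟨i, j, M, ⟨hij, -, hM⟩, h⟩
    · exact Or.inl h
    · exact Or.inr ⟨i, j, hij, M, hM, h⟩
  · rcases hup.2 x hx S hS with h | ⟨i, j, M, ⟨hij, -, hM⟩, h⟩
    · exact Or.inl h
    · exact Or.inr ⟨i, j, hij, M, hM, h⟩

end Pool.Agent.Results.MP_d83ecd_ag.EveryPlace
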