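import Pool.Agent.V8H73.ZP.Place

/-!
# MP_d83ecd_ag: Zilber-Pink over random number fields

The Shimura variety `Y(1)^n` is identified with `ℂ^n` by the modular function `j`. We consider families of subvarieties
`X` of `Y(1)^n`, and of the products of the modular curves of any levels over it, of any dimension `m`, given by data
with coefficients in `ℤ[t, u]`: a projective algebraic set `B ⊆ P^N` given by forms `G`, quotients `f_i = A_i / B_i` of
forms, and monic polynomials `R_i` (`R_i (s_i, j) = 0`, for instance `s_i = j`, or modular functions of higher level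
without poles in the upper half plane).

**Theorem.** Assume that for algebraically independent `t, u` no point of `B` lies on `m + 1` of the divisors of the
`f_i`. Fix a degree `g = k + 1`, and an independent system of exponents `e_(l i)` (for instance `n = 2`: `1, 1; 1, 2`).
Choose at random an integral polynomial `f` of degree `g`, elements `u_y` and `π_l` of `ℤ[X]` of degree less than `g`,
with all coefficients bounded by `H`. Then with probability tending to `1` (as `H → ∞`) the polynomial `f` is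
irreducible of degree `g`, and for EVERY complex root `z` of `f` (every embedding of the number field `ℚ(z)`), the
variety

`X = {x | ∃ y ∈ B, ∃ s, ∀ i, R_i (s_i, x_i) = 0, c_i s_i = A_i (y) / B_i (y)}`, `c_i = ∏_l π_l (z) ^ e_(l i)`,

where the coefficients of `G`, `A`, `B`, `R` are the values at `t = z`, `u = u (z)`, has no atypical intersections
with special subvarieties of `Y(1)^n`, and the points of `X` on a special subvariety of dimension `r` have
transcendence degree at most `r + m - n` (over all countable fields containing `z`).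

All data vary over algebraic numbers of the given degree `g`, over the field `ℚ(z)`, and only a set of density zero is
excluded.
-/

set_option autoImplicit false

namespace Pool.Agent.Results.MP_d83ecd_ag.RandomNumberFields

open Polynomial Pool.Agent.V8H73.ZP Pool.Agent.Results.MP_d83ecd_ag.LocalCriterion

/-- the indices of the random integers, for the degree `k + 1`: the coefficients of the polynomial `f` of degree
`k + 1`, and the coefficients of the polynomials `π_l`, `l = 0, …, M - 1`, and `u_y`, `y` in `Y`, of degree at most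
`k` -/
abbrev Index (k M : ℕ) (Y : Type) : Type := Fin (k + 2) ⊕ ((Fin M ⊕ Y) × Fin (k + 1))

variable {k M : ℕ} {Y : Type} [Fintype Y] [DecidableEq Y]

/-- the vectors of integers of absolute value at most `H` -/
noncomputable def box (k M : ℕ) (Y : Type) [Fintype Y] [DecidableEq Y] (H : ℕ) : Finset (Index k M Y → ℤ) :=
  Fintype.piFinset fun _ => Finset.Icc (-(H : ℤ)) H

/-- the polynomial `f` -/
noncomputable def poly (v : Index k M Y → ℤ) : ℤ[X] := ∑ i : Fin (k + 2), C (v (Sum.inl i)) * X ^ (i : ℕ)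

/-- the polynomial `π_l` -/
noncomputable def factor (v : Index k M Y → ℤ) (l : Fin M) : ℤ[X] :=
  ∑ a : Fin (k + 1), C (v (Sum.inr (Sum.inl l, a))) * X ^ (a : ℕ)

/-- the polynomial `u_y` -/
noncomputable def param (v : Index k M Y → ℤ) (y : Y) : ℤ[X] :=
  ∑ a : Fin (k + 1), C (v (Sum.inr (Sum.inr y, a))) * X ^ (a : ℕ)

/-- the values of the parameters, as polynomials: `t = X` and `u_y` -/
noncomputable def specialize (v : Index k M Y → ℤ) : MvPolynomial (Option Y) ℤ →+* ℤ[X] :=
  MvPolynomial.eval₂Hom C (fun o => o.elim X fun y => param v y)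

/-- the scaling factor `c_i = ∏_l π_l ^ e_(l i)` -/
noncomputable def scale {n : ℕ} (v : Index k M Y → ℤ) (e : Fin M → Fin n → ℕ) (i : Fin n) : ℤ[X] :=
  ∏ l, factor v l ^ e l i

/-- the value of a polynomial at the complex number `z` -/
noncomputable def valueAtRoot (z : ℂ) : ℤ[X] →+* ℂ := eval₂RingHom (Int.castRingHom ℂ) z

/-- the good vectors: `f` is irreducible of degree `k + 1`, and for all its complex roots the variety has no atypical
intersection with special subvarieties of `Y(1)^n` -/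
def Good {κ : Type} {N n : ℕ} (m : ℕ) (G : κ → MvPolynomial (Fin (N + 1)) (MvPolynomial (Option Y) ℤ))
    (A B : Fin n → MvPolynomial (Fin (N + 1)) (MvPolynomial (Option Y) ℤ))
    (R : Fin n → Polynomial (Polynomial (MvPolynomial (Option Y) ℤ))) (e : Fin M → Fin n → ℕ)
    (v : Index k M Y → ℤ) : Prop :=
  (poly v).natDegree = k + 1 ∧ Irreducible ((poly v).map (Int.castRingHom ℚ)) ∧
    ∀ z : ℂ, valueAtRoot z (poly v) = 0 → ∀ K : Subfield ℂ, Countable K → z ∈ K →
      NoAtypical (valueAtRoot z) K m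
        (scaledImage (valueAtRoot z) (fun b => (G b).map (specialize v)) (fun i => (A i).map (specialize v))
          (fun i => (B i).map (specialize v)) (fun i => (R i).map (Polynomial.mapRingHom (specialize v)))
          (scale v e))

omit [Fintype Y] [DecidableEq Y] in
theorem natDegree_pf (v : Index k M Y → ℤ) (h : v (Sum.inl (Fin.last (k + 1))) ≠ 0) :
    (poly v).natDegree = k + 1 ∧ (poly v).leadingCoeff = v (Sum.inl (Fin.last (k + 1))) := by
  have h1 : (poly v).coeff (k + 1) = v (Sum.inl (Fin.last (k + 1))) := by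
    unfold poly
    rw [finsetSum_coeff]
    simp only [coeff_C_mul, coeff_X_pow]
    rw [Finset.sum_eq_single (Fin.last (k + 1))]
    · simp
    · intro i _ hi
      rw [if_neg, mul_zero]
      intro h
      apply hi
      exact Fin.ext (by simpa using h.symm)
    · intro h
      exact absurd (Finset.mem_univ _) h
  have hdeg : (poly v).natDegree ≤ k + 1 := by
    unfold poly
    refine natDegree_sum_le_of_forall_le _ _ fun i _ => ?_
    exact (natDegree_C_mul_X_pow_le _ _).trans (by omega)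
  have h2 : (poly v).natDegree = k + 1 := by
    refine le_antisymm hdeg ?_
    exact le_natDegree_of_ne_zero (by rw [h1]; exact h)
  exact ⟨h2, by rw [leadingCoeff, h2, h1]⟩

open scoped Classical in
/-- **Zilber-Pink over random number fields.** -/
theorem result {κ : Type} {N n m T : ℕ}
    (G : κ → MvPolynomial (Fin (N + 1)) (MvPolynomial (Option Y) ℤ)) (hG : ∀ b, ∃ a, (G b).IsHomogeneous a)
    (A B : Fin n → MvPolynomial (Fin (N + 1)) (MvPolynomial (Option Y) ℤ)) (d : Fin n → ℕ)
    (hA : ∀ i, (A i).IsHomogeneous (d i)) (hB : ∀ i, (B i).IsHomogeneous (d i))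
    (R : Fin n → Polynomial (Polynomial (MvPolynomial (Option Y) ℤ))) (hR : ∀ i, (R i).Monic)
    (hT : ∀ i u w, ((R i).coeff u).coeff w ≠ 0 → u ≤ T ∧ w ≤ T)
    (e : Fin (n.choose 2 + 1) → Fin n → ℕ) (he : IndependentExponents T e)
    {F : Type} [Field F] [IsAlgClosed F] (φ : MvPolynomial (Option Y) ℤ →+* F) (hφ : Function.Injective φ)
    (hgen : InGeneralPosition φ m G A B) (k : ℕ) {ε : ℝ} (hε : 0 < ε) :
    ∃ H₀ : ℕ, ∀ H, H₀ ≤ H →
      (((box k (n.choose 2 + 1) Y H).filter fun v => ¬ Good m G A B R e v).card : ℝ) ≤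
        ε * (box k (n.choose 2 + 1) Y H).card := by
  obtain ⟨D1, hD1, hD1'⟩ := gp_elim G A B φ hφ hgen
  obtain ⟨D2, hD2, hD2'⟩ := co_elim R
  set D := D1 * D2 with hD
  have hD0 : D ≠ 0 := mul_ne_zero hD1 hD2
  have hP1 : ∀ (F' : Type) [Field F'] (ρ : L0 Y →+* F'), ρ D ≠ 0 → InGeneralPosition ρ m G A B := by
    intro F' _ ρ hρ
    rw [hD, map_mul] at hρ
    exact hD1' F' ρ (mul_ne_zero_iff.1 hρ).1
  have hP2 : ∀ (F' : Type) [Field F'] (ρ : L0 Y →+* F'), ρ D ≠ 0 →
      ∀ i u w, ((R i).coeff u).coeff w ≠ 0 → ρ (((R i).coeff u).coeff w) ≠ 0 := by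
    intro F' _ ρ hρ
    rw [hD, map_mul] at hρ
    exact hD2' F' ρ (mul_ne_zero_iff.1 hρ).2
  have hδ : (0 : ℝ) < ε / (((n.choose 2 + 1 : ℕ) : ℝ) + 1) := by positivity
  have hl : ∀ l : Fin (n.choose 2 + 1), ∃ H₀ : ℕ, ∀ H, H₀ ≤ H →
      (((bx (Jz k (Fin (n.choose 2 + 1) ⊕ Y)) H).filter fun v => ∀ p : ℕ, p.Prime →
        rd p v ∉ Om (k := k) (Sum.inl l : Fin (n.choose 2 + 1) ⊕ Y) (El D l) p).card : ℝ) ≤
        ε / (((n.choose 2 + 1 : ℕ) : ℝ) + 1) * (bx (Jz k (Fin (n.choose 2 + 1) ⊕ Y)) H).card := by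
    intro l
    obtain ⟨P₀, hP₀⟩ := Om_card (k := k) (Sum.inl l : Fin (n.choose 2 + 1) ⊕ Y) (El D l) (rs_El hD0 l)
    obtain ⟨H₀, hH₀⟩ := sieve (by positivity) P₀ _ hP₀ hδ
    refine ⟨H₀, fun H hH => le_trans (Nat.cast_le.2 (Finset.card_le_card fun v hv => ?_)) (hH₀ H hH)⟩
    rw [Finset.mem_filter] at hv ⊢
    exact ⟨hv.1, fun p hp _ => hv.2 p hp⟩
  have hirr : ∃ H₀ : ℕ, ∀ H, H₀ ≤ H →
      (((bx (Jz k (Fin (n.choose 2 + 1) ⊕ Y)) H).filter fun v => ∀ p : ℕ, p.Prime →
        rd p v ∉ Ir k (Fin (n.choose 2 + 1) ⊕ Y) p).card : ℝ) ≤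
        ε / (((n.choose 2 + 1 : ℕ) : ℝ) + 1) * (bx (Jz k (Fin (n.choose 2 + 1) ⊕ Y)) H).card := by
    obtain ⟨H₀, hH₀⟩ := sieve (by positivity) 3 _ (Ir_card (k := k) (Z := Fin (n.choose 2 + 1) ⊕ Y)) hδ
    refine ⟨H₀, fun H hH => le_trans (Nat.cast_le.2 (Finset.card_le_card fun v hv => ?_)) (hH₀ H hH)⟩
    rw [Finset.mem_filter] at hv ⊢
    exact ⟨hv.1, fun p hp _ => hv.2 p hp⟩
  choose Hl hHl using hl
  obtain ⟨Hi, hHi⟩ := hirr
  refine ⟨max Hi (Finset.univ.sup Hl), fun H hH => ?_⟩
  have hbox : box k (n.choose 2 + 1) Y H = bx (Jz k (Fin (n.choose 2 + 1) ⊕ Y)) H := rfl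
  have hsub : (box k (n.choose 2 + 1) Y H).filter (fun v => ¬ Good m G A B R e v) ⊆
      ((bx (Jz k (Fin (n.choose 2 + 1) ⊕ Y)) H).filter fun v => ∀ p : ℕ, p.Prime → rd p v ∉ Ir k (Fin (n.choose 2 + 1) ⊕ Y) p) ∪
        Finset.univ.biUnion fun l : Fin (n.choose 2 + 1) => (bx (Jz k (Fin (n.choose 2 + 1) ⊕ Y)) H).filter fun v => ∀ p : ℕ, p.Prime →
          rd p v ∉ Om (k := k) (Sum.inl l : Fin (n.choose 2 + 1) ⊕ Y) (El D l) p := by
    intro v hv
    rw [Finset.mem_filter] at hv
    by_contra hcon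
    rw [Finset.mem_union, not_or, Finset.mem_filter, Finset.mem_biUnion] at hcon
    obtain ⟨hc1, hc2⟩ := hcon
    have hv1 : v ∈ bx (Jz k (Fin (n.choose 2 + 1) ⊕ Y)) H := hv.1
    push Not at hc1 hc2
    obtain ⟨p₀, hp₀, hIr⟩ := hc1 hv1
    have hc3 : ∀ l : Fin (n.choose 2 + 1), ∃ p : ℕ, p.Prime ∧ rd p v ∈ Om (k := k) (Sum.inl l : Fin (n.choose 2 + 1) ⊕ Y) (El D l) p := by
      intro l
      have h1 := hc2 l (Finset.mem_univ l)
      rw [Finset.mem_filter] at h1
      push Not at h1
      obtain ⟨p, hp, h2⟩ := h1 hv1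
      exact ⟨p, hp, h2⟩
    apply hv.2
    have hfact : Fact p₀.Prime := ⟨hp₀⟩
    have hlast : v (Sum.inl (Fin.last (k + 1))) ≠ 0 := by
      intro h
      apply hIr.1
      change ((v (Sum.inl (Fin.last (k + 1))) : ℤ) : ZMod p₀) = 0
      rw [h, Int.cast_zero]
    obtain ⟨hdeg, hlc⟩ := natDegree_pf v hlast
    have hpf : poly v = pf v := rfl
    have hirr := irr_of_mod (p := p₀) (f := poly v) (by rw [hlc]; exact hIr.1) (by rw [hdeg]; omega)
      (by rw [hpf, pf_map]; exact hIr.2)
    refine ⟨hdeg, hirr.1, fun z hz K hK hzK => ?_⟩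
    have hKc : Countable K := hK
    have hev : ∀ a : ℤ[X], evz z a ∈ K := by
      intro a
      rw [evz, coe_eval₂RingHom, eval₂_eq_sum_range]
      refine Subfield.sum_mem _ fun i _ => Subfield.mul_mem _ ?_ (Subfield.pow_mem _ hzK _)
      exact Subfield.intCast_mem _ _
    have hcomp : evz z = (RingHom.kerLift (evz z)).comp (Ideal.Quotient.mk (RingHom.ker (evz z))) := by
      refine RingHom.ext fun a => ?_
      rfl
    have hplace : ∀ l : Fin (n.choose 2 + 1), Nonempty (GoodPlace (Λ := ℤ[X] ⧸ RingHom.ker (evz z)) m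
        (fun b => (G b).map ((Ideal.Quotient.mk (RingHom.ker (evz z))).comp (sp v Sum.inr)))
        (fun i => (A i).map ((Ideal.Quotient.mk (RingHom.ker (evz z))).comp (sp v Sum.inr)))
        (fun i => (B i).map ((Ideal.Quotient.mk (RingHom.ker (evz z))).comp (sp v Sum.inr)))
        (fun i => (R i).map (Polynomial.mapRingHom ((Ideal.Quotient.mk (RingHom.ker (evz z))).comp (sp v Sum.inr))))
        (fun i => Ideal.Quotient.mk (RingHom.ker (evz z)) (cf v e i)) (e l)) := by
      intro l
      obtain ⟨p, hp, hOm⟩ := hc3 l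
      have hpf' : Fact p.Prime := ⟨hp⟩
      obtain ⟨hv0, r, hr, hr0, hE⟩ := hOm
      have hcont : (((pf v).content : ℤ) : ZMod p) ≠ 0 := by
        intro h0
        obtain ⟨q, hq⟩ : (poly v).content ∣ (poly v).leadingCoeff := content_dvd_coeff _
        apply hv0
        change ((v (Sum.inl (Fin.last (k + 1))) : ℤ) : ZMod p) = 0
        rw [← hlc, hq, Int.cast_mul]
        have h0' : (((poly v).content : ℤ) : ZMod p) = 0 := h0
        rw [h0', zero_mul]
      exact ⟨plc hirr.2.1 hcont (by rw [← hpf, hdeg]; omega) hz hP1 hP2 e hr hr0 hE⟩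
    have hmain := main (RingHom.kerLift (evz z)) (RingHom.kerLift_injective _) K
      (fun a => by
        obtain ⟨a, rfl⟩ := Ideal.Quotient.mk_surjective a
        exact hev a)
      (fun b => (G b).map ((Ideal.Quotient.mk (RingHom.ker (evz z))).comp (sp v Sum.inr)))
      (fun b => by
        obtain ⟨a, ha⟩ := hG b
        exact ⟨a, ha.map _⟩)
      (fun i => (A i).map ((Ideal.Quotient.mk (RingHom.ker (evz z))).comp (sp v Sum.inr)))
      (fun i => (B i).map ((Ideal.Quotient.mk (RingHom.ker (evz z))).comp (sp v Sum.inr))) d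
      (fun i => (hA i).map _) (fun i => (hB i).map _)
      (fun i => (R i).map (Polynomial.mapRingHom ((Ideal.Quotient.mk (RingHom.ker (evz z))).comp (sp v Sum.inr))))
      (fun i => (hR i).map _)
      (fun i u w h => hT i u w (by
        intro h0
        apply h
        rw [Polynomial.coeff_map, Polynomial.coe_mapRingHom, Polynomial.coeff_map, h0, map_zero]))
      (fun i => Ideal.Quotient.mk (RingHom.ker (evz z)) (cf v e i)) e he (fun l => (hplace l).some)
    have h3 := noAt_map (Ideal.Quotient.mk (RingHom.ker (evz z))) _ hmain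
    have h4 := scaled_map (Ideal.Quotient.mk (RingHom.ker (evz z))) (RingHom.kerLift (evz z))
      (fun b => (G b).map (sp v Sum.inr)) (fun i => (A i).map (sp v Sum.inr)) (fun i => (B i).map (sp v Sum.inr))
      (fun i => (R i).map (Polynomial.mapRingHom (sp v Sum.inr))) (cf v e)
    simp only [MvPolynomial.map_map, Polynomial.map_map, Polynomial.mapRingHom_comp] at h4
    rw [← h4] at h3
    exact h3
  have hcard : ((((bx (Jz k (Fin (n.choose 2 + 1) ⊕ Y)) H).filter fun v => ∀ p : ℕ, p.Prime → rd p v ∉ Ir k (Fin (n.choose 2 + 1) ⊕ Y) p) ∪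
        Finset.univ.biUnion fun l : Fin (n.choose 2 + 1) => (bx (Jz k (Fin (n.choose 2 + 1) ⊕ Y)) H).filter fun v => ∀ p : ℕ, p.Prime →
          rd p v ∉ Om (k := k) (Sum.inl l : Fin (n.choose 2 + 1) ⊕ Y) (El D l) p).card : ℝ) ≤
      ε / (((n.choose 2 + 1 : ℕ) : ℝ) + 1) * (bx (Jz k (Fin (n.choose 2 + 1) ⊕ Y)) H).card +
        ∑ l : Fin (n.choose 2 + 1), ε / (((n.choose 2 + 1 : ℕ) : ℝ) + 1) * (bx (Jz k (Fin (n.choose 2 + 1) ⊕ Y)) H).card := by
    refine le_trans (Nat.cast_le.2 (Finset.card_union_le _ _)) ?_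
    rw [Nat.cast_add]
    refine add_le_add (hHi H ((le_max_left _ _).trans hH)) ?_
    refine le_trans (Nat.cast_le.2 Finset.card_biUnion_le) ?_
    rw [Nat.cast_sum]
    exact Finset.sum_le_sum fun l _ =>
      hHl l H ((Finset.le_sup (f := Hl) (Finset.mem_univ l)).trans ((le_max_right _ _).trans hH))
  rw [hbox]
  refine le_trans (Nat.cast_le.2 (Finset.card_le_card hsub)) (hcard.trans (le_of_eq ?_))
  rw [Finset.sum_const, Finset.card_univ, Fintype.card_fin, nsmul_eq_mul]
  have hq1 : ((n.choose 2 + 1 : ℕ) : ℝ) + 1 ≠ 0 := by positivity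
  generalize ((n.choose 2 + 1 : ℕ) : ℝ) = q at hq1
  field_simp
  ring

end Pool.Agent.Results.MP_d83ecd_ag.RandomNumberFields
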